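import Mathlib
import Pool.Agent.FT934.CB
set_option autoImplicit false
open MeasureTheory intervalIntegral Set
namespace FT722
noncomputable section

/-- area of a region between two continuous graphs over `[p, q]` (upper bound) -/
theorem reg_le {p q : ℝ} {f g : ℝ → ℝ} (hpq : p ≤ q) (hf : ContinuousOn f (Icc p q))
    (hg : ContinuousOn g (Icc p q)) (hfg : ∀ s ∈ Icc p q, f s ≤ g s) {E : Set (ℝ × ℝ)}
    (hE : ∀ w ∈ E, w.1 ∈ Icc p q ∧ f w.1 ≤ w.2 ∧ w.2 ≤ g w.1) :
    volume E ≤ ENNReal.ofReal (∫ s in p..q, (g s - f s)) := by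
  have key : ∀ ε : ℝ, 0 < ε → volume E ≤
      ENNReal.ofReal ((∫ s in p..q, (g s - f s)) + 2 * (q - p) * ε) := by
    intro ε hε
    have h1 := volume_regionBetween_eq_integral (μ := (volume : Measure ℝ))
      (f := fun s => f s - ε) (g := fun s => g s + ε) (s := Icc p q)
      ((hf.sub continuousOn_const).integrableOn_compact isCompact_Icc)
      ((hg.add continuousOn_const).integrableOn_compact isCompact_Icc)
      measurableSet_Icc (fun x hx => by have := hfg x hx; linarith)
    rw [← Measure.volume_eq_prod] at h1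
    have h2 : (∫ y in Icc p q, ((fun s => g s + ε) - (fun s => f s - ε)) y) =
        (∫ s in p..q, (g s - f s)) + 2 * (q - p) * ε := by
      rw [integral_Icc_eq_integral_Ioc, ← intervalIntegral.integral_of_le hpq]
      have : (fun y => ((fun s => g s + ε) - (fun s => f s - ε)) y) =
          fun y => (g y - f y) + 2 * ε := by
        funext y; simp only [Pi.sub_apply]; ring
      rw [this, intervalIntegral.integral_add, intervalIntegral.integral_const]
      · simp only [smul_eq_mul]; ring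
      · apply ContinuousOn.intervalIntegrable
        rw [uIcc_of_le hpq]
        exact hg.sub hf
      · simp
    rw [h2] at h1
    rw [← h1]
    apply measure_mono
    rintro ⟨s, t⟩ hp
    obtain ⟨h3, h4, h5⟩ := hE _ hp
    simp only [regionBetween, Set.mem_ofPred_eq, mem_Ioo]
    simp only at h4 h5
    exact ⟨h3, by linarith, by linarith⟩
  have hI : 0 ≤ ∫ s in p..q, (g s - f s) := by
    apply intervalIntegral.integral_nonneg hpq
    intro s hs
    linarith [hfg s hs]
  apply ENNReal.le_of_forall_pos_le_add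
  intro ε hε _
  rcases hpq.eq_or_lt with h0 | h0
  · have h3 := key 1 one_pos
    rw [h0] at h3 ⊢
    simp only [sub_self, mul_zero, zero_mul, add_zero] at h3
    exact h3.trans le_self_add
  · have ha0 : 0 < q - p := by linarith
    have h3 := key (ε / (2 * (q - p))) (by positivity)
    have h4 : 2 * (q - p) * ((ε : ℝ) / (2 * (q - p))) = ε := by field_simp
    rw [h4, ENNReal.ofReal_add hI (by positivity)] at h3
    simpa using h3

/-- area of a region between two continuous graphs over `[p, q]` (lower bound) -/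
theorem le_reg {p q : ℝ} {f g : ℝ → ℝ} (hpq : p ≤ q) (hf : ContinuousOn f (Icc p q))
    (hg : ContinuousOn g (Icc p q)) (hfg : ∀ s ∈ Icc p q, f s ≤ g s) {E : Set (ℝ × ℝ)}
    (hE : ∀ s ∈ Ioc p q, ∀ t, f s < t → t < g s → (s, t) ∈ E) :
    ENNReal.ofReal (∫ s in p..q, (g s - f s)) ≤ volume E := by
  have h1 := volume_regionBetween_eq_integral (μ := (volume : Measure ℝ)) (f := f) (g := g)
    (s := Ioc p q)
    ((hf.integrableOn_compact isCompact_Icc).mono_set Ioc_subset_Icc_self)
    ((hg.integrableOn_compact isCompact_Icc).mono_set Ioc_subset_Icc_self)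
    measurableSet_Ioc (fun s hs => hfg s (Ioc_subset_Icc_self hs))
  rw [← Measure.volume_eq_prod] at h1
  have h2 : (∫ s in p..q, (g s - f s)) = ∫ y in Ioc p q, (g - f) y := by
    rw [intervalIntegral.integral_of_le hpq]
    rfl
  rw [h2, ← h1]
  apply measure_mono
  rintro ⟨s, t⟩ hp
  simp only [regionBetween, Set.mem_ofPred_eq, mem_Ioo] at hp
  exact hE s hp.1 t hp.2.1 hp.2.2

/-- refined comparison of two potentials along a curve -/
theorem gen_curve' {a : ℝ} {f Lr Ll Mr Ml : ℝ → ℝ} {x x' : ℝ} (hxa : -a ≤ x) (hx : x ≤ x')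
    (hxa' : x' ≤ a)
    (hf : IntervalIntegrable f volume x x')
    (hLr : ContinuousOn Lr (Icc (-a) a)) (hLl : ContinuousOn Ll (Icc (-a) a))
    (hMr : ContinuousOn Mr (Icc (-a) a)) (hMl : ContinuousOn Ml (Icc (-a) a))
    (h1 : ∀ s ∈ Icc x x', f s ≤ Lr s) (h2 : ∀ s ∈ Icc x x', f s ≤ Ml s) :
    2 * (∫ s in x..x', f s) + ((∫ s in (-a)..x, (Ml s - Ll s)) +
      (∫ s in x..x', |Lr s - Ml s|) + (∫ s in x'..a, (Lr s - Mr s))) ≤
      ((∫ s in x..a, Lr s) - ∫ s in (-a)..x, Ll s) -
      ((∫ s in x'..a, Mr s) - ∫ s in (-a)..x', Ml s) := by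
  have m1 : x ∈ Icc (-a) a := ⟨hxa, by linarith⟩
  have m2 : x' ∈ Icc (-a) a := ⟨by linarith, hxa'⟩
  have m3 : a ∈ Icc (-a) a := ⟨by linarith, le_refl _⟩
  have m4 : -a ∈ Icc (-a) a := ⟨le_refl _, by linarith⟩
  have e1 : (∫ s in x..a, Lr s) = (∫ s in x..x', Lr s) + ∫ s in x'..a, Lr s :=
    (intervalIntegral.integral_add_adjacent_intervals (ii_of_cont hLr m1 m2)
      (ii_of_cont hLr m2 m3)).symm
  have e2 : (∫ s in (-a)..x', Ml s) = (∫ s in (-a)..x, Ml s) + ∫ s in x..x', Ml s :=
    (intervalIntegral.integral_add_adjacent_intervals (ii_of_cont hMl m4 m1)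
      (ii_of_cont hMl m1 m2)).symm
  have e3 : (∫ s in (-a)..x, (Ml s - Ll s)) = (∫ s in (-a)..x, Ml s) - ∫ s in (-a)..x, Ll s :=
    intervalIntegral.integral_sub (ii_of_cont hMl m4 m1) (ii_of_cont hLl m4 m1)
  have e4 : (∫ s in x'..a, (Lr s - Mr s)) = (∫ s in x'..a, Lr s) - ∫ s in x'..a, Mr s :=
    intervalIntegral.integral_sub (ii_of_cont hLr m2 m3) (ii_of_cont hMr m2 m3)
  have i1 : IntervalIntegrable (fun s => |Lr s - Ml s|) volume x x' :=
    ii_of_cont (hLr.sub hMl).abs m1 m2
  have e5 : (∫ s in x..x', (2 * f s + |Lr s - Ml s|)) ≤ ∫ s in x..x', (Lr s + Ml s) := by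
    apply intervalIntegral.integral_mono_on hx ((hf.const_mul 2).add i1)
      ((ii_of_cont hLr m1 m2).add (ii_of_cont hMl m1 m2))
    intro s hs
    have g1 := h1 s hs
    have g2 := h2 s hs
    rcases abs_cases (Lr s - Ml s) with ⟨g3, _⟩ | ⟨g3, _⟩ <;> rw [g3] <;> linarith
  rw [intervalIntegral.integral_add (hf.const_mul 2) i1,
    intervalIntegral.integral_add (ii_of_cont hLr m1 m2) (ii_of_cont hMl m1 m2),
    intervalIntegral.integral_const_mul] at e5
  rw [e1, e2, e3, e4]
  linarith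

end
end FT722
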