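import Mathlib
import Pool.Agent.FT722.Stn2
import Pool.Agent.FT722x.P7a
set_option autoImplicit false
open MeasureTheory intervalIntegral Set
namespace FT722
noncomputable section

variable {a : ℝ} {U : ℝ → ℝ}

theorem lo_contP (h : Body a U) : ContinuousOn (fun s => -U (-s)) (Icc (-a) a) := (cont_neg h).neg

theorem ar_KUP (h : Body a U) : ar (KU a U) = ∫ s in (-a)..a, (U s + U (-s)) := by
  have e : (∫ s in (-a)..a, (U s + U (-s))) = ∫ s in (-a)..a, (U s - (fun s => -U (-s)) s) := by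
    congr 1; funext s; simp
  have hnn : 0 ≤ ∫ s in (-a)..a, (U s + U (-s)) :=
    intervalIntegral.integral_nonneg (by linarith [h.pos]) (fun s hs => h.nn s hs)
  have h1 := reg_le (E := KU a U) (by linarith [h.pos]) (lo_contP h) h.cont
    (fun s hs => lo_le_up h hs) (fun w hw => mem_KU_iff.mp hw)
  have h2 := le_reg (E := KU a U) (by linarith [h.pos]) (lo_contP h) h.cont
    (fun s hs => lo_le_up h hs) (fun s hs t ht1 ht2 => mem_KU_iff.mpr
      ⟨⟨hs.1.le, hs.2⟩, ht1.le, ht2.le⟩)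
  rw [← e] at h1 h2
  unfold ar
  rw [le_antisymm h1 h2, ENNReal.toReal_ofReal hnn]

/-- generic computation of a cap: a half plane given by a function -/
theorem capP_eq_of (h : Body a U) {z u : ℝ × ℝ} {p q : ℝ} (hp : -a ≤ p) (hpq : p ≤ q) (hq : q ≤ a)
    {f g : ℝ → ℝ} (hf : ContinuousOn f (Icc p q)) (hg : ContinuousOn g (Icc p q))
    (hfg : ∀ s ∈ Icc p q, f s ≤ g s)
    (h1 : ∀ w ∈ KU a U, cr u (w - z) < 0 → w.1 ∈ Icc p q ∧ f w.1 ≤ w.2 ∧ w.2 ≤ g w.1)
    (h2 : ∀ s ∈ Ioc p q, ∀ t, f s < t → t < g s → (s, t) ∈ KU a U ∧ cr u ((s, t) - z) < 0) :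
    cap (KU a U) z u = ∫ s in p..q, (g s - f s) := by
  have hnn : 0 ≤ ∫ s in p..q, (g s - f s) :=
    intervalIntegral.integral_nonneg hpq (fun s hs => by linarith [hfg s hs])
  have e1 := reg_le (E := KU a U ∩ Hs z u) hpq hf hg hfg (fun w hw => h1 w hw.1 hw.2)
  have e2 := le_reg (E := KU a U ∩ Hs z u) hpq hf hg hfg (fun s hs t ht1 ht2 => h2 s hs t ht1 ht2)
  unfold cap
  rw [le_antisymm e1 e2, ENNReal.toReal_ofReal hnn]

/-- cap above a line -/
theorem capP_above (h : Body a U) (z : ℝ × ℝ) {u : ℝ × ℝ} (hu : u.1 < 0) :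
    cap (KU a U) z u = ∫ s in (-a)..a, (U s - cl U z (u.2 / u.1) s) := by
  have key : ∀ w : ℝ × ℝ, cr u (w - z) < 0 ↔ z.2 + u.2 / u.1 * (w.1 - z.1) < w.2 := by
    intro w
    have hu' : u.1 ≠ 0 := hu.ne
    have e : cr u (w - z) = (-u.1) * (z.2 + u.2 / u.1 * (w.1 - z.1) - w.2) := by
      unfold cr
      simp only [Prod.fst_sub, Prod.snd_sub]
      field_simp
      ring
    rw [e]
    constructor
    · intro h1
      by_contra h2
      push Not at h2
      have := mul_nonneg (by linarith : 0 ≤ -u.1) (sub_nonneg.mpr h2)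
      linarith
    · intro h1
      exact mul_neg_of_pos_of_neg (by linarith) (by linarith)
  apply capP_eq_of h le_rfl (by linarith [h.pos]) le_rfl (cl_cont h _ _) h.cont
    (fun s hs => cl_hi' h _ _ hs)
  · intro w hw h1
    rw [key] at h1
    obtain ⟨w1, w2, w3⟩ := mem_KU_iff.mp hw
    exact ⟨w1, max_le w2 ((min_le_right _ _).trans h1.le), w3⟩
  · intro s hs t ht1 ht2
    rw [key]
    have hs' : s ∈ Icc (-a) a := ⟨hs.1.le, hs.2⟩
    refine ⟨mem_KU_iff.mpr ⟨hs', (cl_lo' _ _ _ _).trans ht1.le, ht2.le⟩, ?_⟩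
    simp only
    by_contra hc
    push Not at hc
    have : t ≤ cl U z (u.2 / u.1) s := le_max_of_le_right (le_min ht2.le hc)
    linarith

/-- cap below a line -/
theorem capP_below (h : Body a U) (z : ℝ × ℝ) {u : ℝ × ℝ} (hu : 0 < u.1) :
    cap (KU a U) z u = ∫ s in (-a)..a, (cl U z (u.2 / u.1) s + U (-s)) := by
  have key : ∀ w : ℝ × ℝ, cr u (w - z) < 0 ↔ w.2 < z.2 + u.2 / u.1 * (w.1 - z.1) := by
    intro w
    have e : cr u (w - z) = u.1 * (w.2 - (z.2 + u.2 / u.1 * (w.1 - z.1))) := by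
      unfold cr
      simp only [Prod.fst_sub, Prod.snd_sub]
      field_simp
      ring
    rw [e]
    constructor
    · intro h1
      by_contra h2
      push Not at h2
      have := mul_nonneg hu.le (sub_nonneg.mpr h2)
      linarith
    · intro h1
      exact mul_neg_of_pos_of_neg hu (by linarith)
  have e : (∫ s in (-a)..a, (cl U z (u.2 / u.1) s + U (-s))) =
      ∫ s in (-a)..a, (cl U z (u.2 / u.1) s - (fun s => -U (-s)) s) := by
    congr 1; funext s; simp
  rw [e]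
  apply capP_eq_of h le_rfl (by linarith [h.pos]) le_rfl (lo_contP h) (cl_cont h _ _)
    (fun s hs => cl_lo' _ _ _ _)
  · intro w hw h1
    rw [key] at h1
    obtain ⟨w1, w2, w3⟩ := mem_KU_iff.mp hw
    exact ⟨w1, w2, le_max_of_le_right (le_min w3 h1.le)⟩
  · intro s hs t ht1 ht2
    rw [key]
    have hs' : s ∈ Icc (-a) a := ⟨hs.1.le, hs.2⟩
    refine ⟨mem_KU_iff.mpr ⟨hs', ht1.le, ht2.le.trans (cl_hi' h _ _ hs')⟩, ?_⟩
    simp only
    by_contra hc
    push Not at hc
    have : cl U z (u.2 / u.1) s ≤ t := max_le ht1.le ((min_le_right _ _).trans hc)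
    linarith

/-- cap to the right of a vertical line -/
theorem capP_right (h : Body a U) {z : ℝ × ℝ} (hz : z ∈ KU a U) {u : ℝ × ℝ} (hu : u.1 = 0)
    (hu2 : 0 < u.2) :
    cap (KU a U) z u = ∫ s in z.1..a, (U s + U (-s)) := by
  have hz1 := KU_Icc hz
  have key : ∀ w : ℝ × ℝ, cr u (w - z) < 0 ↔ z.1 < w.1 := by
    intro w
    unfold cr
    simp only [Prod.fst_sub, Prod.snd_sub, hu, zero_mul, zero_sub, neg_lt_zero]
    constructor
    · intro h1
      by_contra h2
      push Not at h2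
      have := mul_nonneg hu2.le (sub_nonneg.mpr h2)
      linarith
    · intro h1
      exact mul_pos hu2 (by linarith)
  have e : (∫ s in z.1..a, (U s + U (-s))) = ∫ s in z.1..a, (U s - (fun s => -U (-s)) s) := by
    congr 1; funext s; simp
  rw [e]
  have hsub : Icc z.1 a ⊆ Icc (-a) a := Icc_subset_Icc hz1.1 le_rfl
  apply capP_eq_of h hz1.1 hz1.2 le_rfl ((lo_contP h).mono hsub) (h.cont.mono hsub)
    (fun s hs => lo_le_up h (hsub hs))
  · intro w hw h1
    rw [key] at h1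
    obtain ⟨w1, w2, w3⟩ := mem_KU_iff.mp hw
    exact ⟨⟨h1.le, w1.2⟩, w2, w3⟩
  · intro s hs t ht1 ht2
    rw [key]
    exact ⟨mem_KU_iff.mpr ⟨hsub (Ioc_subset_Icc_self hs), ht1.le, ht2.le⟩, hs.1⟩

/-- a null vertical line -/
theorem capP_left (h : Body a U) {z : ℝ × ℝ} (hz : z ∈ KU a U) {u : ℝ × ℝ} (hu : u.1 = 0)
    (hu2 : u.2 < 0) :
    cap (KU a U) z u = ∫ s in (-a)..z.1, (U s + U (-s)) := by
  have hz1 := KU_Icc hz
  have key : ∀ w : ℝ × ℝ, cr u (w - z) < 0 ↔ w.1 < z.1 := by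
    intro w
    unfold cr
    simp only [Prod.fst_sub, Prod.snd_sub, hu, zero_mul, zero_sub, neg_lt_zero]
    constructor
    · intro h1
      by_contra h2
      push Not at h2
      have := mul_nonneg (by linarith : 0 ≤ -u.2) (sub_nonneg.mpr h2)
      linarith
    · intro h1
      exact mul_pos_of_neg_of_neg hu2 (by linarith)
  have e : (∫ s in (-a)..z.1, (U s + U (-s))) = ∫ s in (-a)..z.1, (U s - (fun s => -U (-s)) s) := by
    congr 1; funext s; simp
  have hsub : Icc (-a) z.1 ⊆ Icc (-a) a := Icc_subset_Icc le_rfl hz1.2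
  have hnn : 0 ≤ ∫ s in (-a)..z.1, (U s - (fun s => -U (-s)) s) :=
    intervalIntegral.integral_nonneg hz1.1 (fun s hs => by
      have := lo_le_up h (hsub hs); simp only; linarith)
  have e1 := reg_le (E := KU a U ∩ Hs z u) hz1.1 ((lo_contP h).mono hsub) (h.cont.mono hsub)
    (fun s hs => lo_le_up h (hsub hs)) (fun w hw => by
      have h1 : cr u (w - z) < 0 := hw.2
      rw [key] at h1
      obtain ⟨w1, w2, w3⟩ := mem_KU_iff.mp hw.1
      exact ⟨⟨w1.1, h1.le⟩, w2, w3⟩)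
  have e2 := le_reg (E := (KU a U ∩ Hs z u) ∪ {w : ℝ × ℝ | w.1 = z.1}) hz1.1
    ((lo_contP h).mono hsub) (h.cont.mono hsub)
    (fun s hs => lo_le_up h (hsub hs)) (fun s hs t ht1 ht2 => by
      rcases hs.2.eq_or_lt with h3 | h3
      · right; exact h3
      · left
        refine ⟨mem_KU_iff.mpr ⟨hsub (Ioc_subset_Icc_self hs), ht1.le, ht2.le⟩, ?_⟩
        change cr u ((s, t) - z) < 0
        rw [key]
        exact h3)
  have e3 : volume {w : ℝ × ℝ | w.1 = z.1} = 0 := by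
    have : {w : ℝ × ℝ | w.1 = z.1} = {z.1} ×ˢ (univ : Set ℝ) := by
      ext w; simp
    rw [this, Measure.volume_eq_prod, Measure.prod_prod]
    simp
  have e4 := (e2.trans (measure_union_le _ _))
  rw [e3, add_zero] at e4
  unfold cap
  rw [e, le_antisymm e1 e4, ENNReal.toReal_ofReal hnn]

end
end FT722
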