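import Mathlib
import Pool.Agent.FT722x.P7c
set_option autoImplicit false
open MeasureTheory intervalIntegral Set
namespace FT722
noncomputable section

variable {a : ℝ} {U : ℝ → ℝ}

/-- a half plane is described on `[-a, x]` by the function `Ll` and on `[x, a]` by `Lr` -/
structure Rep (a : ℝ) (U : ℝ → ℝ) (H : Set (ℝ × ℝ)) (x : ℝ) (Ll Lr : ℝ → ℝ) : Prop where
  cl : ContinuousOn Ll (Icc (-a) a)
  cr : ContinuousOn Lr (Icc (-a) a)
  l1 : ∀ p ∈ KU a U, p.1 ≤ x → p ∈ H → p.1 ≠ x → Ll p.1 ≤ p.2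
  l2 : ∀ p ∈ KU a U, p.1 ≤ x → p ∉ H → p.1 ≠ x → p.2 ≤ Ll p.1
  r1 : ∀ p ∈ KU a U, x ≤ p.1 → p ∈ H → p.1 ≠ x → Lr p.1 ≤ p.2
  r2 : ∀ p ∈ KU a U, x ≤ p.1 → p ∉ H → p.1 ≠ x → p.2 ≤ Lr p.1

theorem vertP_null (x : ℝ) : volume {w : ℝ × ℝ | w.1 = x} = 0 := by
  have : {w : ℝ × ℝ | w.1 = x} = {x} ×ˢ (univ : Set ℝ) := by
    ext w; simp
  rw [this, Measure.volume_eq_prod, Measure.prod_prod]
  simp

theorem gam_le {H H' : Set (ℝ × ℝ)} {x x' : ℝ} {Ll Lr Ml Mr : ℝ → ℝ}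
    (hxa : -a ≤ x) (hx : x ≤ x') (hxa' : x' ≤ a)
    (hL : Rep a U H x Ll Lr) (hM : Rep a U H' x' Ml Mr)
    (o1 : ∀ s ∈ Icc (-a) x, Ll s ≤ Ml s) (o2 : ∀ s ∈ Icc x' a, Mr s ≤ Lr s) :
    (volume (KU a U ∩ symmDiff H' H)).toReal ≤ (∫ s in (-a)..x, (Ml s - Ll s)) +
      (∫ s in x..x', |Lr s - Ml s|) + (∫ s in x'..a, (Lr s - Mr s)) := by
  set E := KU a U ∩ symmDiff H' H with hE
  have hEd : ∀ p ∈ E, p ∈ KU a U ∧ ((p ∈ H' ∧ p ∉ H) ∨ (p ∈ H ∧ p ∉ H')) := by
    intro p hp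
    exact ⟨hp.1, by simpa [Set.mem_symmDiff] using hp.2⟩
  have s1 : Icc (-a) x ⊆ Icc (-a) a := Icc_subset_Icc le_rfl (by linarith)
  have s2 : Icc x x' ⊆ Icc (-a) a := Icc_subset_Icc hxa hxa'
  have s3 : Icc x' a ⊆ Icc (-a) a := Icc_subset_Icc (by linarith) le_rfl
  have h1 := reg_le (E := E ∩ {p | p.1 < x}) hxa (hL.cl.mono s1) (hM.cl.mono s1) o1 (by
    rintro p ⟨hp, hp1⟩
    have hp1' : p.1 < x := hp1
    obtain ⟨g1, g2⟩ := hEd p hp
    have g3 := (mem_KU_iff.mp g1).1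
    have g4 := o1 p.1 ⟨g3.1, hp1'.le⟩
    have g5 : p.1 < x' := lt_of_lt_of_le hp1' hx
    refine ⟨⟨g3.1, hp1'.le⟩, ?_⟩
    rcases g2 with ⟨q1, q2⟩ | ⟨q1, q2⟩
    · have w1 := hM.l1 p g1 g5.le q1 g5.ne
      have w2 := hL.l2 p g1 hp1'.le q2 hp1'.ne
      constructor <;> linarith
    · have w1 := hL.l1 p g1 hp1'.le q1 hp1'.ne
      have w2 := hM.l2 p g1 g5.le q2 g5.ne
      exact ⟨w1, w2⟩)
  have h3 := reg_le (E := E ∩ {p | x' < p.1}) hxa' (hM.cr.mono s3) (hL.cr.mono s3) o2 (by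
    rintro p ⟨hp, hp1⟩
    have hp1' : x' < p.1 := hp1
    obtain ⟨g1, g2⟩ := hEd p hp
    have g3 := (mem_KU_iff.mp g1).1
    have g4 := o2 p.1 ⟨hp1'.le, g3.2⟩
    have g5 : x < p.1 := lt_of_le_of_lt hx hp1'
    refine ⟨⟨hp1'.le, g3.2⟩, ?_⟩
    rcases g2 with ⟨q1, q2⟩ | ⟨q1, q2⟩
    · have w1 := hM.r1 p g1 hp1'.le q1 hp1'.ne'
      have w2 := hL.r2 p g1 g5.le q2 g5.ne'
      exact ⟨w1, w2⟩
    · have w1 := hL.r1 p g1 g5.le q1 g5.ne'
      have w2 := hM.r2 p g1 hp1'.le q2 hp1'.ne'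
      constructor <;> linarith)
  have h2 := reg_le (E := E ∩ {p | x < p.1 ∧ p.1 < x'}) hx
    ((hL.cr.mono s2).inf (hM.cl.mono s2)) ((hL.cr.mono s2).sup (hM.cl.mono s2))
    (fun s _ => (inf_le_left.trans le_sup_left)) (by
    rintro p ⟨hp, hp1⟩
    obtain ⟨hp1', hp2'⟩ : x < p.1 ∧ p.1 < x' := hp1
    obtain ⟨g1, g2⟩ := hEd p hp
    refine ⟨⟨hp1'.le, hp2'.le⟩, ?_⟩
    rcases g2 with ⟨q1, q2⟩ | ⟨q1, q2⟩
    · have w1 := hM.l1 p g1 hp2'.le q1 hp2'.ne
      have w2 := hL.r2 p g1 hp1'.le q2 hp1'.ne'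
      exact ⟨inf_le_right.trans w1, w2.trans le_sup_left⟩
    · have w1 := hL.r1 p g1 hp1'.le q1 hp1'.ne'
      have w2 := hM.l2 p g1 hp2'.le q2 hp2'.ne
      exact ⟨inf_le_left.trans w1, w2.trans le_sup_right⟩)
  have e2 : (∫ s in x..x', ((fun s => Lr s ⊔ Ml s) s - (fun s => Lr s ⊓ Ml s) s)) =
      ∫ s in x..x', |Lr s - Ml s| := by
    congr 1; funext s
    simp only
    rw [sup_sub_inf_eq_abs_sub]
    exact abs_sub_comm _ _
  have h2' : volume (E ∩ {p | x < p.1 ∧ p.1 < x'}) ≤ ENNReal.ofReal (∫ s in x..x', |Lr s - Ml s|) := by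
    rw [← e2]; exact h2
  have hcov : E ⊆ (E ∩ {p | p.1 < x}) ∪ (E ∩ {p | x < p.1 ∧ p.1 < x'}) ∪
      (E ∩ {p | x' < p.1}) ∪ {p | p.1 = x} ∪ {p | p.1 = x'} := by
    intro p hp
    rcases lt_trichotomy p.1 x with g | g | g
    · left; left; left; left; exact ⟨hp, g⟩
    · left; right; exact g
    · rcases lt_trichotomy p.1 x' with g' | g' | g'
      · left; left; left; right; exact ⟨hp, g, g'⟩
      · right; exact g'
      · left; left; right; exact ⟨hp, g'⟩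
  have i1 : 0 ≤ ∫ s in (-a)..x, (Ml s - Ll s) :=
    intervalIntegral.integral_nonneg hxa (fun s hs => by linarith [o1 s hs])
  have i2 : 0 ≤ ∫ s in x..x', |Lr s - Ml s| :=
    intervalIntegral.integral_nonneg hx (fun s hs => abs_nonneg _)
  have i3 : 0 ≤ ∫ s in x'..a, (Lr s - Mr s) :=
    intervalIntegral.integral_nonneg hxa' (fun s hs => by linarith [o2 s hs])
  apply ENNReal.toReal_le_of_le_ofReal (by linarith)
  rw [ENNReal.ofReal_add (by linarith) i3, ENNReal.ofReal_add i1 i2]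
  refine (measure_mono hcov).trans ?_
  refine (measure_union_le _ _).trans ?_
  rw [vertP_null, add_zero]
  refine (measure_union_le _ _).trans ?_
  rw [vertP_null, add_zero]
  refine (measure_union_le _ _).trans ?_
  refine add_le_add ?_ h3
  refine (measure_union_le _ _).trans ?_
  exact add_le_add h1 h2'

/-- representation of the half plane above a line -/
theorem rep_line (h : Body a U) (z : ℝ × ℝ) {u : ℝ × ℝ} (hu : u.1 < 0) (x : ℝ) :
    Rep a U (Hs z u) x (cl U z (u.2 / u.1)) (cl U z (u.2 / u.1)) := by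
  have hu' : u.1 ≠ 0 := hu.ne
  have key : ∀ w : ℝ × ℝ, w ∈ Hs z u ↔ z.2 + u.2 / u.1 * (w.1 - z.1) < w.2 := by
    intro w
    change cr u (w - z) < 0 ↔ _
    have e : cr u (w - z) = (-u.1) * (z.2 + u.2 / u.1 * (w.1 - z.1) - w.2) := by
      unfold FT722.cr
      simp only [Prod.fst_sub, Prod.snd_sub]
      field_simp
      ring
    rw [e]
    constructor
    · intro h1
      by_contra h2
      push Not at h2
      have := mul_nonneg (by linarith : 0 ≤ -u.1) (sub_nonneg.mpr h2)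
      linarith
    · intro h1
      exact mul_neg_of_pos_of_neg (by linarith) (by linarith)
  have k1 : ∀ w ∈ KU a U, w ∈ Hs z u → cl U z (u.2 / u.1) w.1 ≤ w.2 := by
    intro w hw h1
    rw [key] at h1
    exact max_le (mem_KU_iff.mp hw).2.1 ((min_le_right _ _).trans h1.le)
  have k2 : ∀ w ∈ KU a U, w ∉ Hs z u → w.2 ≤ cl U z (u.2 / u.1) w.1 := by
    intro w hw h1
    rw [key, not_lt] at h1
    exact le_max_of_le_right (le_min (mem_KU_iff.mp hw).2.2 h1)
  exact ⟨cl_cont h _ _, cl_cont h _ _, fun p hp _ h1 _ => k1 p hp h1, fun p hp _ h1 _ => k2 p hp h1,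
    fun p hp _ h1 _ => k1 p hp h1, fun p hp _ h1 _ => k2 p hp h1⟩

theorem rep_left (h : Body a U) (z : ℝ × ℝ) {u : ℝ × ℝ} (hu : u.1 = 0) (hu2 : u.2 < 0) :
    Rep a U (Hs z u) z.1 (fun s => -U (-s)) U := by
  have key : ∀ w : ℝ × ℝ, w ∈ Hs z u ↔ w.1 < z.1 := by
    intro w
    change cr u (w - z) < 0 ↔ _
    unfold FT722.cr
    simp only [Prod.fst_sub, Prod.snd_sub, hu, zero_mul, zero_sub, neg_lt_zero]
    constructor
    · intro h1
      by_contra h2
      push Not at h2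
      have := mul_nonneg (by linarith : 0 ≤ -u.2) (sub_nonneg.mpr h2)
      linarith
    · intro h1
      exact mul_pos_of_neg_of_neg hu2 (by linarith)
  refine ⟨lo_contP h, h.cont, ?_, ?_, ?_, ?_⟩
  · intro p hp _ _ _; exact (mem_KU_iff.mp hp).2.1
  · intro p hp h1 h2 h3
    rw [key] at h2
    exact absurd (lt_of_le_of_ne h1 h3) h2
  · intro p hp h1 h2 h3
    rw [key] at h2
    linarith
  · intro p hp _ _ _; exact (mem_KU_iff.mp hp).2.2

theorem rep_right (h : Body a U) (z : ℝ × ℝ) {u : ℝ × ℝ} (hu : u.1 = 0) (hu2 : 0 < u.2) :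
    Rep a U (Hs z u) z.1 U (fun s => -U (-s)) := by
  have key : ∀ w : ℝ × ℝ, w ∈ Hs z u ↔ z.1 < w.1 := by
    intro w
    change cr u (w - z) < 0 ↔ _
    unfold FT722.cr
    simp only [Prod.fst_sub, Prod.snd_sub, hu, zero_mul, zero_sub, neg_lt_zero]
    constructor
    · intro h1
      by_contra h2
      push Not at h2
      have := mul_nonneg hu2.le (sub_nonneg.mpr h2)
      linarith
    · intro h1
      exact mul_pos hu2 (by linarith)
  refine ⟨h.cont, lo_contP h, ?_, ?_, ?_, ?_⟩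
  · intro p hp h1 h2 _
    rw [key] at h2
    linarith
  · intro p hp _ _ _; exact (mem_KU_iff.mp hp).2.2
  · intro p hp _ _ _; exact (mem_KU_iff.mp hp).2.1
  · intro p hp h1 h2 h3
    rw [key] at h2
    exact absurd (lt_of_le_of_ne h1 (Ne.symm h3)) h2

/-- general arc inequality with rotation term -/
theorem arc_gen {f Ll Lr Ml Mr : ℝ → ℝ} {x x' : ℝ} {H H' : Set (ℝ × ℝ)}
    (hxa : -a ≤ x) (hx : x ≤ x') (hxa' : x' ≤ a) (hfc : ContinuousOn f (Icc x x'))
    (hL : Rep a U H x Ll Lr) (hM : Rep a U H' x' Ml Mr)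
    (o1 : ∀ s ∈ Icc (-a) x, Ll s ≤ Ml s) (o2 : ∀ s ∈ Icc x' a, Mr s ≤ Lr s)
    (h1 : ∀ s ∈ Icc x x', f s ≤ Lr s) (h2 : ∀ s ∈ Icc x x', f s ≤ Ml s) :
    2 * (∫ s in x..x', f s) + (volume (KU a U ∩ symmDiff H' H)).toReal ≤
      ((∫ s in x..a, Lr s) - ∫ s in (-a)..x, Ll s) -
      ((∫ s in x'..a, Mr s) - ∫ s in (-a)..x', Ml s) := by
  have g1 := gam_le hxa hx hxa' hL hM o1 o2
  have g2 := gen_curve' (f := f) hxa hx hxa' (by
    apply ContinuousOn.intervalIntegrable; rw [uIcc_of_le hx]; exact hfc)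
    hL.cr hL.cl hM.cr hM.cl h1 h2
  linarith

/-- direction data at the left end of a top arc -/
def DirL (f : ℝ → ℝ) (x x' : ℝ) (u : ℝ × ℝ) : Prop :=
  (u.1 = 0 ∧ u.2 < 0) ∨ (u.1 < 0 ∧ ∀ s ∈ Icc x x', f s ≤ f x + u.2 / u.1 * (s - x))
/-- direction data at the right end of a top arc -/
def DirR (f : ℝ → ℝ) (x x' : ℝ) (u : ℝ × ℝ) : Prop :=
  (u.1 = 0 ∧ 0 < u.2) ∨ (u.1 < 0 ∧ ∀ s ∈ Icc x x', f s ≤ f x' + u.2 / u.1 * (s - x'))

/-- the top arc inequality in local coordinates -/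
theorem arcT (h : Body a U) {f : ℝ → ℝ} {x x' : ℝ} {u u' : ℝ × ℝ}
    (hx : x < x') (hfc : ContinuousOn f (Icc x x'))
    (hK : ∀ s ∈ Icc x x', (s, f s) ∈ KU a U)
    (hu : DirL f x x' u) (hu' : DirR f x x' u') :
    x * f x - x' * f x' + 2 * (∫ s in x..x', f s) +
      gam (KU a U) (x', f x') u' (x, f x) u ≤
      pot a U (x, f x) u + (if u.1 = 0 then ar (KU a U) else 0) - pot a U (x', f x') u' := by
  have hz := hK x ⟨le_rfl, hx.le⟩
  have hz' := hK x' ⟨hx.le, le_rfl⟩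
  have hxa := KU_Icc hz
  have hxa' := KU_Icc hz'
  simp only at hxa hxa'
  have hVe := ar_KUP h
  have hmx := Phmax_sub h hz
  unfold gam pot
  have hup : ∀ s ∈ Icc x x', f s ≤ U s := fun s hs => (mem_KU_iff.mp (hK s hs)).2.2
  rcases hu with ⟨u1, u2⟩ | ⟨u1, u2⟩
  · rcases hu' with ⟨v1, v2⟩ | ⟨v1, v2⟩
    · rw [if_pos u1, if_pos u1, if_pos v1]
      have := arc_gen (f := f) hxa.1 hx.le hxa'.2 hfc (rep_left h (x, f x) u1 u2)
        (rep_right h (x', f x') v1 v2)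
        (fun s hs => lo_le_up h ⟨hs.1, by linarith [hs.2, hxa.2]⟩)
        (fun s hs => lo_le_up h ⟨by linarith [hs.1, hxa'.1], hs.2⟩) hup hup
      unfold Phmin Phmax at *
      simp only at *
      linarith
    · rw [if_pos u1, if_pos u1, if_neg v1.ne]
      have := arc_gen (f := f) hxa.1 hx.le hxa'.2 hfc (rep_left h (x, f x) u1 u2)
        (rep_line h (x', f x') v1 x')
        (fun s hs => cl_lo' _ _ _ _)
        (fun s hs => cl_hi' h _ _ ⟨by linarith [hs.1, hxa'.1], hs.2⟩) hup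
        (fun s hs => le_max_of_le_right (le_min (hup s hs) (v2 s hs)))
      unfold Phmin Phmax Phi at *
      simp only at *
      linarith
  · rcases hu' with ⟨v1, v2⟩ | ⟨v1, v2⟩
    · rw [if_neg u1.ne, if_neg u1.ne, if_pos v1]
      have := arc_gen (f := f) hxa.1 hx.le hxa'.2 hfc (rep_line h (x, f x) u1 x)
        (rep_right h (x', f x') v1 v2)
        (fun s hs => cl_hi' h _ _ ⟨hs.1, by linarith [hs.2, hxa.2]⟩)
        (fun s hs => cl_lo' _ _ _ _)
        (fun s hs => le_max_of_le_right (le_min (hup s hs) (u2 s hs))) hup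
      unfold Phmin Phi at *
      simp only at *
      linarith
    · rw [if_neg u1.ne, if_neg u1.ne, if_neg v1.ne]
      have hmm : u'.2 / u'.1 ≤ u.2 / u.1 := by
        have h1 := u2 x' ⟨hx.le, le_refl _⟩
        have h2 := v2 x ⟨le_refl _, hx.le⟩
        have h3 : 0 < x' - x := by linarith
        by_contra hcon
        push Not at hcon
        have := mul_lt_mul_of_pos_right hcon h3
        linarith
      have := arc_gen (f := f) hxa.1 hx.le hxa'.2 hfc (rep_line h (x, f x) u1 x)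
        (rep_line h (x', f x') v1 x')
        (by
          intro s hs
          unfold cl
          refine max_le_max le_rfl (min_le_min le_rfl ?_)
          simp only
          have h1 := v2 x ⟨le_rfl, hx.le⟩
          have h2 := mul_nonneg (sub_nonneg.mpr hmm) (sub_nonneg.mpr hs.2)
          nlinarith)
        (by
          intro s hs
          unfold cl
          refine max_le_max le_rfl (min_le_min le_rfl ?_)
          simp only
          have h1 := u2 x' ⟨hx.le, le_rfl⟩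
          have h2 := mul_nonneg (sub_nonneg.mpr hmm) (sub_nonneg.mpr hs.1)
          nlinarith)
        (fun s hs => le_max_of_le_right (le_min (hup s hs) (u2 s hs)))
        (fun s hs => le_max_of_le_right (le_min (hup s hs) (v2 s hs)))
      unfold Phi at *
      simp only at *
      linarith

end
end FT722
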