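import Mathlib
import Pool.Agent.FT722x.P7d
set_option autoImplicit false
open MeasureTheory intervalIntegral Set
namespace FT722
noncomputable section

variable {a : ℝ} {U : ℝ → ℝ}

/-- potential of a station -/
def Qs (a : ℝ) (U : ℝ → ℝ) (s : Stn) : ℝ := pot a U (s.v - s.o) s.u + cr s.o s.v - s.v.1 * s.v.2

/-- cost of a pair of stations -/
def Ds (a : ℝ) (U : ℝ → ℝ) (hh : ℝ) (s s' : Stn) : ℝ :=
  cr s.o s'.o + (if s.o = s'.o then 0 else hh - kap (KU a U) (ar (KU a U) - hh) s.o s'.o s'.v s'.u) -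
    gam (KU a U) (s.v - s.o) s.u (s'.v - s.o) s'.u

theorem topArc (h : Body a U) {hh : ℝ}
    (hhex : ∀ p ∈ KU a U, ∀ q ∈ KU a U, ∀ r ∈ KU a U, cr p q + cr q r + cr p r ≤ hh)
    (hV : ar (KU a U) ≤ 2 * hh) {f : ℝ → ℝ} {x x' : ℝ} {s s' : Stn}
    (hx : x < x') (hfc : ContinuousOn f (Icc x x')) (hsv : s.v = (x', f x'))
    (hsv' : s'.v = (x, f x)) (hK : ∀ t ∈ Icc x x', ((t, f t) : ℝ × ℝ) - s.o ∈ KU a U)
    (hz' : s'.v - s'.o ∈ KU a U) (hu : DirR f x x' s.u) (hu' : DirL f x x' s'.u) :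
    2 * (∫ t in x..x', f t) + Qs a U s ≤
      Qs a U s' + Ds a U hh s s' + (if s'.u.1 = 0 then ar (KU a U) else 0) := by
  have hu0 : s'.u ≠ 0 := by
    intro h0
    rcases hu' with ⟨_, h2⟩ | ⟨h1, _⟩
    · rw [h0] at h2; simp at h2
    · rw [h0] at h1; simp at h1
  have hz1 : s'.v - s.o ∈ KU a U := by rw [hsv']; exact hK x ⟨le_rfl, hx.le⟩
  have J := jump_pot h hhex hV hu0 hz1 hz'
  have A := arcT h (f := fun t => f (t + s.o.1) - s.o.2) (x := x - s.o.1) (x' := x' - s.o.1)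
    (u := s'.u) (u' := s.u) (by linarith) (shift_cont hfc s.o) (shift_mem hK)
    (by
      rcases hu' with h1 | ⟨h1, h2⟩
      · left; exact h1
      · right
        refine ⟨h1, fun t ht => ?_⟩
        have := h2 (t + s.o.1) ⟨by linarith [ht.1], by linarith [ht.2]⟩
        simp only [sub_add_cancel]
        have e : t + s.o.1 - x = t - (x - s.o.1) := by ring
        rw [e] at this
        linarith)
    (by
      rcases hu with h1 | ⟨h1, h2⟩
      · left; exact h1
      · right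
        refine ⟨h1, fun t ht => ?_⟩
        have := h2 (t + s.o.1) ⟨by linarith [ht.1], by linarith [ht.2]⟩
        simp only [sub_add_cancel]
        have e : t + s.o.1 - x' = t - (x' - s.o.1) := by ring
        rw [e] at this
        linarith)
  simp only [sub_add_cancel] at A
  have P := piece_global (c := s.o)
    (A := pot a U (x - s.o.1, f x - s.o.2) s'.u + (if s'.u.1 = 0 then ar (KU a U) else 0))
    (B := pot a U (x' - s.o.1, f x' - s.o.2) s.u +
      gam (KU a U) (x' - s.o.1, f x' - s.o.2) s.u (x - s.o.1, f x - s.o.2) s'.u) hx.le hfc (by linarith)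
  unfold Qs Ds
  rw [hsv, hsv'] at *
  rw [sub_eq' x' (f x') s.o] at *
  rw [sub_eq' x (f x) s.o] at *
  simp only at *
  linarith

theorem capfP_neg (z u : ℝ × ℝ) : capf (KU a U) (-z) (-u) = capf (KU a U) z u := by
  unfold capf; rw [capP_neg]

/-- direction data for bottom arcs -/
def DirLb (f : ℝ → ℝ) (x x' : ℝ) (u : ℝ × ℝ) : Prop :=
  (u.1 = 0 ∧ u.2 < 0) ∨ (0 < u.1 ∧ ∀ t ∈ Icc x x', f x + u.2 / u.1 * (t - x) ≤ f t)
def DirRb (f : ℝ → ℝ) (x x' : ℝ) (u : ℝ × ℝ) : Prop :=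
  (u.1 = 0 ∧ 0 < u.2) ∨ (0 < u.1 ∧ ∀ t ∈ Icc x x', f x' + u.2 / u.1 * (t - x') ≤ f t)

theorem botArc (h : Body a U) {hh : ℝ}
    (hhex : ∀ p ∈ KU a U, ∀ q ∈ KU a U, ∀ r ∈ KU a U, cr p q + cr q r + cr p r ≤ hh)
    (hV : ar (KU a U) ≤ 2 * hh) {f : ℝ → ℝ} {x x' : ℝ} {s s' : Stn}
    (hx : x < x') (hfc : ContinuousOn f (Icc x x')) (hsv : s.v = (x, f x))
    (hsv' : s'.v = (x', f x')) (hK : ∀ t ∈ Icc x x', ((t, f t) : ℝ × ℝ) - s.o ∈ KU a U)
    (hz' : s'.v - s'.o ∈ KU a U) (hu : DirLb f x x' s.u) (hu' : DirRb f x x' s'.u) :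
    -2 * (∫ t in x..x', f t) + Qs a U s ≤
      Qs a U s' + Ds a U hh s s' + (if s'.u.1 = 0 then ar (KU a U) else 0) := by
  have hz : s.v - s.o ∈ KU a U := by rw [hsv]; exact hK x ⟨le_rfl, hx.le⟩
  have T := topArc h hhex hV (f := fun t => -f (-t)) (x := -x') (x' := -x)
    (s := ⟨-s.o, -s.v, -s.u, s.θ⟩) (s' := ⟨-s'.o, -s'.v, -s'.u, s'.θ⟩) (by linarith)
    (by
      apply ContinuousOn.neg
      apply hfc.comp continuous_neg.continuousOn
      intro t ht
      exact ⟨by linarith [ht.2], by linarith [ht.1]⟩)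
    (by simp only [hsv, neg_neg]; rfl) (by simp only [hsv', neg_neg]; rfl)
    (by
      intro t ht
      have := KU_neg (hK (-t) ⟨by linarith [ht.2], by linarith [ht.1]⟩)
      convert this using 1
      ext <;> simp <;> ring)
    (by
      have := KU_neg hz'
      convert this using 1
      simp only; abel)
    (by
      rcases hu with ⟨h1, h2⟩ | ⟨h1, h2⟩
      · left; exact ⟨by simp [h1], by simpa using h2⟩
      · right
        refine ⟨by simpa using h1, fun t ht => ?_⟩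
        have := h2 (-t) ⟨by linarith [ht.2], by linarith [ht.1]⟩
        simp only [Prod.fst_neg, Prod.snd_neg, neg_div_neg_eq, neg_neg]
        have e : -t - x = -(t - -x) := by ring
        rw [e] at this
        linarith)
    (by
      rcases hu' with ⟨h1, h2⟩ | ⟨h1, h2⟩
      · left; exact ⟨by simp [h1], by simpa using h2⟩
      · right
        refine ⟨by simpa using h1, fun t ht => ?_⟩
        have := h2 (-t) ⟨by linarith [ht.2], by linarith [ht.1]⟩
        simp only [Prod.fst_neg, Prod.snd_neg, neg_div_neg_eq, neg_neg]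
        have e : -t - x' = -(t - -x') := by ring
        rw [e] at this
        linarith)
  have e1 : (∫ t in (-x')..(-x), -f (-t)) = -∫ t in x..x', f t := by
    rw [intervalIntegral.integral_neg, intervalIntegral.integral_comp_neg]
    simp
  have q : ∀ s : Stn, s.v - s.o ∈ KU a U →
      Qs a U ⟨-s.o, -s.v, -s.u, s.θ⟩ = Qs a U s := by
    intro s hs
    unfold Qs
    simp only
    have e : -s.v - -s.o = -(s.v - s.o) := by abel
    rw [e, pot_neg h hs]
    have e2 : cr (-s.o) (-s.v) = cr s.o s.v := by unfold cr; simp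
    rw [e2]; simp
  have d : Ds a U hh ⟨-s.o, -s.v, -s.u, s.θ⟩ ⟨-s'.o, -s'.v, -s'.u, s'.θ⟩ = Ds a U hh s s' := by
    unfold Ds kap sig
    simp only
    have e2 : cr (-s.o) (-s'.o) = cr s.o s'.o := by unfold cr; simp
    have e3 : -s'.v - -s.o = -(s'.v - s.o) := by abel
    have e4 : -s'.v - -s'.o = -(s'.v - s'.o) := by abel
    have e5 : -s.v - -s.o = -(s.v - s.o) := by abel
    rw [e2, e3, e4, e5, capfP_neg, capfP_neg, gamP_neg]
    simp only [neg_inj]
  rw [e1, q s hz, q s' hz', d] at T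
  simp only [Prod.fst_neg, neg_eq_zero] at T
  linarith

theorem Qs_vert (s : Stn) (hu : s.u.1 = 0) : Qs a U s = Gmin a U s.v.1 s.o := by
  have := Gmin_eq (a := a) (U := U) s.v.1 s.v.2 s.o
  unfold Qs pot
  rw [if_pos hu, this]

theorem vertArc (h : Body a U) {hh : ℝ}
    (hhex : ∀ p ∈ KU a U, ∀ q ∈ KU a U, ∀ r ∈ KU a U, cr p q + cr q r + cr p r ≤ hh)
    (hV : ar (KU a U) ≤ 2 * hh) {s s' : Stn} (hu : s.u.1 = 0) (hu2 : s.u ≠ 0) (huu : s'.u = s.u)
    (hv : s'.v.1 = s.v.1)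
    (hK : s.o = s'.o ∨ (s'.v - s.o ∈ KU a U ∧ s'.v - s'.o ∈ KU a U)) :
    Qs a U s ≤ Qs a U s' + Ds a U hh s s' := by
  have hg : gam (KU a U) (s.v - s.o) s.u (s'.v - s.o) s'.u = 0 := by
    have : Hs (s.v - s.o) s.u = Hs (s'.v - s.o) s'.u := by
      ext p
      simp only [Hs, Set.mem_ofPred_eq, cr, huu, hu, Prod.fst_sub, Prod.snd_sub, hv, zero_mul]
    unfold gam
    rw [this, symmDiff_self]
    simp
  have hu' : s'.u.1 = 0 := by rw [huu]; exact hu
  unfold Ds
  rw [hg]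
  rcases hK with ho | ⟨h1, h2⟩
  · rw [Qs_vert s hu, Qs_vert s' hu', hv, ho, if_pos rfl]
    have : cr s'.o s'.o = 0 := by unfold cr; ring
    rw [this]; simp
  · have J := jump_pot h hhex hV (u := s'.u) (by rw [huu]; exact hu2) h1 h2
    have e1 : Qs a U s = pot a U (s'.v - s.o) s'.u + cr s.o s'.v - s'.v.1 * s'.v.2 := by
      rw [Qs_vert s hu]
      have := Gmin_eq (a := a) (U := U) s'.v.1 s'.v.2 s.o
      unfold pot
      rw [if_pos hu', ← hv, this]
    rw [e1]
    unfold Qs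
    linarith

end
end FT722
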