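import Mathlib
import Pool.Agent.FT722x.P7e
set_option autoImplicit false
open MeasureTheory intervalIntegral Set
namespace FT722
noncomputable section

/-- sum over consecutive pairs of an open chain -/
def chn {α : Type} (f : α → α → ℝ) : α → List α → ℝ
  | _, [] => 0
  | a, b :: l => f a b + chn f b l

theorem cycgo_eq_chn {α : Type} (f : α → α → ℝ) (a0 : α) : ∀ (l : List α) (a : α),
    cyc.go f a0 a l = chn f a (l ++ [a0]) := by
  intro l
  induction l with
  | nil => intro a; simp [cyc.go, chn]
  | cons b l ih => intro a; simp only [cyc.go, List.cons_append, chn, ih]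

theorem cyc_eq_chn {α : Type} (f : α → α → ℝ) (a : α) (l : List α) :
    cyc f (a :: l) = chn f a (l ++ [a]) := by
  simp only [cyc]; exact cycgo_eq_chn f a l a

theorem chn_append {α : Type} (f : α → α → ℝ) (b : α) (m : List α) : ∀ (l : List α) (a : α),
    chn f a (l ++ b :: m) = chn f a (l ++ [b]) + chn f b m := by
  intro l
  induction l with
  | nil => intro a; simp [chn]
  | cons c l ih => intro a; simp only [List.cons_append, chn, ih]; ring

theorem cyc_four {α : Type} (f : α → α → ℝ) (a1 a2 a3 a4 : α) (t1 t2 t3 t4 : List α) :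
    cyc f ((a1 :: t1) ++ (a2 :: t2) ++ (a3 :: t3) ++ (a4 :: t4)) =
      chn f a1 (t1 ++ [a2]) + chn f a2 (t2 ++ [a3]) + chn f a3 (t3 ++ [a4]) + chn f a4 (t4 ++ [a1]) := by
  have e : ((a1 :: t1) ++ (a2 :: t2) ++ (a3 :: t3) ++ (a4 :: t4)) =
      a1 :: (t1 ++ a2 :: (t2 ++ a3 :: (t3 ++ a4 :: t4))) := by simp
  rw [e, cyc_eq_chn]
  have e2 : (t1 ++ a2 :: (t2 ++ a3 :: (t3 ++ a4 :: t4))) ++ [a1] =
      t1 ++ a2 :: (t2 ++ a3 :: (t3 ++ a4 :: (t4 ++ [a1]))) := by simp
  rw [e2, chn_append f a2 _ t1 a1, chn_append f a3 _ t2 a2, chn_append f a4 _ t3 a3]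
  ring

theorem cyc_sub {α : Type} (f g : α → α → ℝ) (l : List α) :
    cyc (fun s s' => f s s' - g s s') l = cyc f l - cyc g l := by
  cases l with
  | nil => simp [cyc]
  | cons a l =>
    simp only [cyc_eq_chn]
    generalize l ++ [a] = m
    induction m generalizing a with
    | nil => simp [chn]
    | cons b m ih => simp only [chn, ih]; ring

theorem cyc_add {α : Type} (f g : α → α → ℝ) (l : List α) :
    cyc (fun s s' => f s s' + g s s') l = cyc f l + cyc g l := by
  cases l with
  | nil => simp [cyc]
  | cons a l =>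
    simp only [cyc_eq_chn]
    generalize l ++ [a] = m
    induction m generalizing a with
    | nil => simp [chn]
    | cons b m ih => simp only [chn, ih]; ring

/-- chains indexed by a range -/
theorem chn_range {α : Type} (f : α → α → ℝ) : ∀ (n : ℕ) (g : ℕ → α),
    chn f (g 0) ((List.range n).map (fun j => g (j + 1))) =
      ∑ j ∈ Finset.range n, f (g j) (g (j + 1)) := by
  intro n
  induction n with
  | zero => intro g; simp [chn]
  | succ n ih =>
    intro g
    rw [List.range_succ_eq_map, List.map_cons, chn, Finset.sum_range_succ']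
    have := ih (fun j => g (j + 1))
    simp only [zero_add] at this ⊢
    rw [List.map_map]
    have e : ((fun j => g (j + 1)) ∘ Nat.succ) = fun j => g (j + 1 + 1) := by
      funext j; rfl
    rw [e, this]
    ring

/-- sum estimate along a range -/
theorem sum_ge {P : ℕ → ℝ} {D : ℕ → ℝ} (n : ℕ) (hD : ∀ j < n, P j ≤ P (j + 1) + D j) :
    P 0 ≤ P n + ∑ j ∈ Finset.range n, D j := by
  induction n with
  | zero => simp
  | succ n ih =>
    have h1 := ih (fun j hj => hD j (by omega))
    have h2 := hD n (by omega)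
    rw [Finset.sum_range_succ]
    linarith

theorem chn_range_snoc {α : Type} (f : α → α → ℝ) (n : ℕ) (g : ℕ → α) :
    chn f (g 0) ((List.range n).map (fun j => g (j + 1)) ++ [g (n + 1)]) =
      ∑ j ∈ Finset.range (n + 1), f (g j) (g (j + 1)) := by
  rw [← chn_range f (n + 1) g, List.range_succ, List.map_append]
  rfl

end
end FT722
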