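import Mathlib
import Pool.Agent.FT722x.P7f
import Pool.Agent.FT722x.SwDefs
set_option autoImplicit false
open MeasureTheory intervalIntegral Set
namespace FT722
noncomputable section

section edges
variable {ι : Type} {a : ℝ} {U : ℝ → ℝ} {hh : ℝ}

/-- the right edge -/
theorem edgeR (h : Body a U)
    (hhex : ∀ p ∈ KU a U, ∀ q ∈ KU a U, ∀ r ∈ KU a U, cr p q + cr q r + cr p r ≤ hh)
    (hV : ar (KU a U) ≤ 2 * hh) (c : ι → ℝ × ℝ) (X : ℝ) (R : ι → ι → Prop) (P : ι → Prop)
    (y : ι → ℝ)
    (hR : ∀ i i', P i → P i' → R i i' →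
      (((X, y i') : ℝ × ℝ) - c i ∈ KU a U ∧ ((X, y i') : ℝ × ℝ) - c i' ∈ KU a U)) (θ0 : ℝ) :
    ∀ (l : List ι) (i0 : ι) (s : Stn), s.o = c i0 → s.v.1 = X → s.u = (0, 1) →
      (∀ i ∈ i0 :: l, P i) → (i0 :: l).IsChain R → ∀ la ∈ (i0 :: l).getLast?, ∀ b : Stn,
      b.o = c la → b.v.1 = X → b.u = (0, 1) →
      Qs a U s ≤ Qs a U b + chn (Ds a U hh) s
        (l.map (fun i => (⟨c i, (X, y i), (0, 1), θ0⟩ : Stn)) ++ [b]) := by
  intro l
  induction l with
  | nil =>
    intro i0 s hs1 hs2 hs3 _ _ la hla b hb1 hb2 hb3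
    simp only [List.getLast?_singleton, Option.mem_def, Option.some.injEq] at hla
    subst hla
    have := vertArc h hhex hV (s := s) (s' := b) (by rw [hs3]) (by rw [hs3]; simp)
      (by rw [hs3, hb3]) (by rw [hs2, hb2]) (Or.inl (by rw [hs1, hb1]))
    simpa [chn] using this
  | cons i1 l ih =>
    intro i0 s hs1 hs2 hs3 hP hch la hla b hb1 hb2 hb3
    rw [List.isChain_cons_cons] at hch
    obtain ⟨g1, g2⟩ := hR i0 i1 (hP i0 (by simp)) (hP i1 (by simp)) hch.1
    have h1 := vertArc h hhex hV (s := s) (s' := ⟨c i1, (X, y i1), (0, 1), θ0⟩)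
      (by rw [hs3]) (by rw [hs3]; simp) (by rw [hs3]) (by rw [hs2])
      (Or.inr ⟨by rw [hs1]; exact g1, g2⟩)
    have h2 := ih i1 ⟨c i1, (X, y i1), (0, 1), θ0⟩ rfl rfl rfl
      (fun j hj => hP j (List.mem_cons_of_mem _ hj)) hch.2 la
      (by rw [List.getLast?_cons_cons] at hla; exact hla) b hb1 hb2 hb3
    rw [List.map_cons, List.cons_append, chn]
    linarith

/-- the left edge -/
theorem edgeL (h : Body a U)
    (hhex : ∀ p ∈ KU a U, ∀ q ∈ KU a U, ∀ r ∈ KU a U, cr p q + cr q r + cr p r ≤ hh)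
    (hV : ar (KU a U) ≤ 2 * hh) (c : ι → ℝ × ℝ) (X : ℝ) (R : ι → ι → Prop) (P : ι → Prop)
    (y : ι → ℝ)
    (hR : ∀ i i', P i → P i' → R i i' →
      (((X, y i') : ℝ × ℝ) - c i ∈ KU a U ∧ ((X, y i') : ℝ × ℝ) - c i' ∈ KU a U)) (θ0 : ℝ) :
    ∀ (l : List ι) (i0 : ι) (b : Stn), b.v.1 = X → b.u = (0, -1) →
      (c i0 = b.o ∨ (b.v - c i0 ∈ KU a U ∧ b.v - b.o ∈ KU a U)) →
      (∀ i ∈ i0 :: l, P i) → (i0 :: l).IsChain R → ∀ la ∈ (i0 :: l).getLast?, ∀ s : Stn,
      s.o = c la → s.v.1 = X → s.u = (0, -1) →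
      Qs a U s ≤ Qs a U b + chn (Ds a U hh) s
        ((((i0 :: l).zip l).reverse.map (fun q => (⟨c q.1, (X, y q.2), (0, -1), θ0⟩ : Stn)))
          ++ [b]) := by
  intro l
  induction l with
  | nil =>
    intro i0 b hb1 hb2 hb3 _ _ la hla s hs1 hs2 hs3
    simp only [List.getLast?_singleton, Option.mem_def, Option.some.injEq] at hla
    subst hla
    have := vertArc h hhex hV (s := s) (s' := b) (by rw [hs3]) (by rw [hs3]; simp)
      (by rw [hs3, hb2]) (by rw [hs2, hb1]) (by rw [hs1]; exact hb3)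
    simpa [chn] using this
  | cons i1 l ih =>
    intro i0 b hb1 hb2 hb3 hP hch la hla s hs1 hs2 hs3
    rw [List.isChain_cons_cons] at hch
    obtain ⟨g1, g2⟩ := hR i0 i1 (hP i0 (by simp)) (hP i1 (by simp)) hch.1
    have h1 := vertArc h hhex hV (s := ⟨c i0, (X, y i1), (0, -1), θ0⟩) (s' := b)
      rfl (by simp) (by rw [hb2]) (by rw [hb1]) hb3
    have h2 := ih i1 ⟨c i0, (X, y i1), (0, -1), θ0⟩ rfl rfl (Or.inr ⟨g2, g1⟩)
      (fun j hj => hP j (List.mem_cons_of_mem _ hj)) hch.2 la
      (by rw [List.getLast?_cons_cons] at hla; exact hla) s hs1 hs2 hs3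
    rw [List.zip_cons_cons, List.reverse_cons, List.map_append, List.map_singleton,
      List.append_assoc, List.singleton_append, chn_append]
    simp only [chn, add_zero]
    linarith

end edges

variable {k : ℕ} {a : ℝ} {U cm cp : ℝ → ℝ} {c : Fin k → ℝ × ℝ} {h : ℝ} {s0 s1 : ℝ} {N : ℕ}
  {x μ ν : ℕ → ℝ} {L : ℕ → List (Fin k)} {bo tp : ℕ → Fin k}

theorem ar_regP (h01 : s0 ≤ s1) (hcmc : ContinuousOn cm (Icc s0 s1))
    (hcpc : ContinuousOn cp (Icc s0 s1)) (hle : ∀ s ∈ Icc s0 s1, cm s ≤ cp s) :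
    ar (reg s0 s1 cm cp) = ∫ s in s0..s1, (cp s - cm s) := by
  have h1 := reg_le (E := reg s0 s1 cm cp) h01 hcmc hcpc hle (fun w hw => hw)
  have h2 := le_reg (E := reg s0 s1 cm cp) h01 hcmc hcpc hle
    (fun s hs t ht1 ht2 => ⟨⟨hs.1.le, hs.2⟩, ht1.le, ht2.le⟩)
  unfold ar
  rw [le_antisymm h1 h2, ENNReal.toReal_ofReal]
  exact intervalIntegral.integral_nonneg h01 (fun s hs => by linarith [hle s hs])

theorem reverse_range_map {α : Type} (F : ℕ → α) (n : ℕ) :
    (List.range n).reverse.map F = (List.range n).map (fun i => F (n - 1 - i)) := by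
  apply List.ext_getElem
  · simp
  · intro i h1 h2
    simp

/-- P7: the refined inequality -/
theorem stns_RI (S : Sweep a U cm cp c s0 s1 N x L bo tp) (hs : Slopes cm cp s0 s1 N x μ ν)
    (hh : ∀ p ∈ KU a U, ∀ q ∈ KU a U, ∀ r ∈ KU a U, cr p q + cr q r + cr p r ≤ h)
    (hV : ar (KU a U) ≤ 2 * h) :
    RI (KU a U) (reg s0 s1 cm cp) h (stns U cm cp c N x μ ν L bo tp) := by
  obtain ⟨hB, hinj, h01, hcm, hcmc, hcp, hcpc, hle, hN, hx0, hxN, hx, valid, nodup, hbo, htp⟩ := S
  obtain ⟨hμ, hν⟩ := hs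
  obtain ⟨n, rfl⟩ : ∃ n, N = n + 1 := ⟨N - 1, by omega⟩
  subst hx0
  subst hxN
  have hmono := x_mono hx
  have hsub : ∀ j < n + 1, Icc (x j) (x (j + 1)) ⊆ Icc (x 0) (x (n + 1)) := by
    intro j hj
    apply Icc_subset_Icc (hmono j (by omega) 0 (by omega)) (hmono (n + 1) le_rfl (j + 1) (by omega))
  have hKt : ∀ j < n + 1, ∀ s ∈ Icc (x j) (x (j + 1)), ((s, cp s) : ℝ × ℝ) - c (tp j) ∈ KU a U := by
    intro j hj s hs
    obtain ⟨v1, v2, v3, v4⟩ := valid j hj s hs
    obtain ⟨d1, d2, d3, d4⟩ := v1 (tp j) (List.mem_of_getLast? (htp j hj))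
    exact mem_cell d1 d2 (v4 _ (htp j hj))
  have hKb : ∀ j < n + 1, ∀ s ∈ Icc (x j) (x (j + 1)), ((s, cm s) : ℝ × ℝ) - c (bo j) ∈ KU a U := by
    intro j hj s hs
    obtain ⟨v1, v2, v3, v4⟩ := valid j hj s hs
    obtain ⟨d1, d2, d3, d4⟩ := v1 (bo j) (List.mem_of_head? (hbo j hj))
    exact mem_cell d1 (v3 _ (hbo j hj)) d3
  have hintm : ∀ i j, i ≤ j → j ≤ n + 1 → IntervalIntegrable cm volume (x i) (x j) := by
    intro i j hij hj
    apply ContinuousOn.intervalIntegrable
    rw [uIcc_of_le (hmono j hj i hij)]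
    exact hcmc.mono (Icc_subset_Icc (hmono i (by omega) 0 (by omega)) (hmono (n + 1) le_rfl j hj))
  have hintp : ∀ i j, i ≤ j → j ≤ n + 1 → IntervalIntegrable cp volume (x i) (x j) := by
    intro i j hij hj
    apply ContinuousOn.intervalIntegrable
    rw [uIcc_of_le (hmono j hj i hij)]
    exact hcpc.mono (Icc_subset_Icc (hmono i (by omega) 0 (by omega)) (hmono (n + 1) le_rfl j hj))
  have edge : ∀ s ∈ Icc (x 0) (x (n + 1)), ∀ l : List (Fin k), Valid a U cm cp c l s →
      ∀ i ∈ l, ∀ j ∈ l, (max (lo U (c i) s) (cm s) ≤ max (lo U (c j) s) (cm s) ∧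
    min (hi U (c i) s) (cp s) ≤ min (hi U (c j) s) (cp s) ∧
    max (lo U (c j) s) (cm s) ≤ min (hi U (c i) s) (cp s)) →
      ((s, max (lo U (c j) s) (cm s)) : ℝ × ℝ) - c i ∈ KU a U ∧
      ((s, max (lo U (c j) s) (cm s)) : ℝ × ℝ) - c j ∈ KU a U := by
    intro s hs l hl i hi' j hj' hR
    obtain ⟨r1, r2, r3⟩ := hR
    obtain ⟨d1, d2, d3, d4⟩ := hl.1 i hi'
    obtain ⟨e1, e2, e3, e4⟩ := hl.1 j hj'
    constructor
    · exact mem_cell d1 ((le_max_left _ _).trans r1) (r3.trans (min_le_left _ _))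
    · exact mem_cell e1 (le_max_left _ _) (max_le e4 e3)
  have hV0 := valid 0 (by omega) (x 0) ⟨le_rfl, (hx 0 (by omega)).le⟩
  have hVn := valid n (by omega) (x (n + 1)) ⟨(hx n (by omega)).le, le_rfl⟩
  -- stations
  set a1 : Stn := ⟨c (bo 0), (x 0, cm (x 0)), (0, -1), -(Real.pi / 2)⟩ with ha1
  set a2 : Stn := ⟨c (bo n), (x (n + 1), cm (x (n + 1))), (0, 1), Real.pi / 2⟩ with ha2
  set a3 : Stn := ⟨c (tp n), (x (n + 1), cp (x (n + 1))), (0, 1), Real.pi / 2⟩ with ha3
  set a4 : Stn := ⟨c (tp 0), (x 0, cp (x 0)), (0, -1), 3 * Real.pi / 2⟩ with ha4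
  set t1 : List Stn := (List.range n).map (fun j =>
      ⟨c (bo (j + 1)), (x (j + 1), cm (x (j + 1))), (1, μ (j + 1)), Real.arctan (μ (j + 1))⟩) with ht1
  set t2 : List Stn := (L n).tail.map (fun i =>
      ⟨c i, (x (n + 1), max (lo U (c i) (x (n + 1))) (cm (x (n + 1)))), (0, 1), Real.pi / 2⟩) with ht2
  set t3 : List Stn := (List.range n).reverse.map (fun j =>
      ⟨c (tp j), (x (j + 1), cp (x (j + 1))), (-1, -ν (j + 1)),
        Real.pi + Real.arctan (ν (j + 1))⟩) with ht3
  set t4 : List Stn := ((L 0).zip (L 0).tail).reverse.map (fun q =>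
      ⟨c q.1, (x 0, max (lo U (c q.2) (x 0)) (cm (x 0))), (0, -1), 3 * Real.pi / 2⟩) with ht4
  have hst : stns U cm cp c (n + 1) x μ ν L bo tp = (a1 :: t1) ++ (a2 :: t2) ++ (a3 :: t3) ++
      (a4 :: t4) := by
    simp only [stns, Nat.add_sub_cancel]
    rfl
  -- bottom
  have Bot : Qs a U a1 ≤ Qs a U a2 + 2 * (∫ s in (x 0)..(x (n + 1)), cm s) + ar (KU a U) +
      chn (Ds a U h) a1 (t1 ++ [a2]) := by
    set g : ℕ → Stn := fun j => if j = 0 then a1 else if j ≤ n then
      ⟨c (bo j), (x j, cm (x j)), (1, μ j), Real.arctan (μ j)⟩ else a2 with hg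
    have g0 : g 0 = a1 := by simp [hg]
    have gn : g (n + 1) = a2 := by simp [hg]
    have gm : ∀ j, 0 < j → j ≤ n → g j =
        ⟨c (bo j), (x j, cm (x j)), (1, μ j), Real.arctan (μ j)⟩ := by
      intro j h1 h2
      simp only [hg]
      rw [if_neg (by omega), if_pos h2]
    have et : t1 = (List.range n).map (fun j => g (j + 1)) := by
      rw [ht1]
      apply List.map_congr_left
      intro j hj
      rw [List.mem_range] at hj
      rw [gm (j + 1) (by omega) (by omega)]
    rw [et, ← gn, ← g0, chn_range_snoc]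
    have hsum := sum_ge (P := fun j => Qs a U (g j) + 2 * (∫ s in (x 0)..(x j), cm s) +
      (if j = n + 1 then ar (KU a U) else 0)) (D := fun j => Ds a U h (g j) (g (j + 1))) (n + 1) (by
      intro j hj
      have gv : ∀ i, i ≤ n + 1 → (g i).v = (x i, cm (x i)) := by
        intro i hi
        rcases Nat.eq_zero_or_pos i with h0 | h0
        · rw [h0, g0]
        · rcases Nat.lt_or_ge n i with h1 | h1
          · have : i = n + 1 := by omega
            rw [this, gn]
          · rw [gm i h0 h1]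
      have go : ∀ i, i ≤ n → (g i).o = c (bo i) := by
        intro i hi
        rcases Nat.eq_zero_or_pos i with h0 | h0
        · rw [h0, g0]
        · rw [gm i h0 hi]
      have A := botArc hB hh hV (f := cm) (x := x j) (x' := x (j + 1)) (s := g j) (s' := g (j + 1))
        (hx j hj) (hcmc.mono (hsub j hj)) (gv j (by omega)) (gv (j + 1) (by omega))
        (by rw [go j (by omega)]; exact hKb j hj)
        (by
          rw [gv (j + 1) (by omega)]
          rcases Nat.lt_or_ge n (j + 1) with h1 | h1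
          · have : j = n := by omega
            rw [this, gn]
            exact hKb n (by omega) _ ⟨(hx n (by omega)).le, le_rfl⟩
          · rw [go (j + 1) h1]
            exact hKb (j + 1) (by omega) _ ⟨le_rfl, (hx (j + 1) (by omega)).le⟩)
        (by
          rcases Nat.eq_zero_or_pos j with h0 | h0
          · rw [h0, g0]
            left
            exact ⟨rfl, by simp [ha1]⟩
          · rw [gm j h0 (by omega)]
            right
            refine ⟨by simp, fun t ht => ?_⟩
            simp only [div_one]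
            exact hμ j h0 hj t (hsub j hj ht))
        (by
          rcases Nat.lt_or_ge n (j + 1) with h1 | h1
          · have : j + 1 = n + 1 := by omega
            rw [this, gn]
            left
            exact ⟨rfl, by simp [ha2]⟩
          · rw [gm (j + 1) (by omega) h1]
            right
            refine ⟨by simp, fun t ht => ?_⟩
            simp only [div_one]
            exact hμ (j + 1) (by omega) (by omega) t (hsub j hj ht))
      have e1 : (∫ s in (x 0)..(x (j + 1)), cm s) =
          (∫ s in (x 0)..(x j), cm s) + ∫ s in (x j)..(x (j + 1)), cm s :=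
        (intervalIntegral.integral_add_adjacent_intervals (hintm 0 j (by omega) (by omega))
          (hintm j (j + 1) (by omega) (by omega))).symm
      have e2 : (if (g (j + 1)).u.1 = 0 then ar (KU a U) else 0) =
          (if j + 1 = n + 1 then ar (KU a U) else 0) := by
        rcases Nat.lt_or_ge n (j + 1) with h1 | h1
        · have : j + 1 = n + 1 := by omega
          rw [this, gn, if_pos rfl, if_pos rfl]
        · rw [gm (j + 1) (by omega) h1, if_neg (by simp), if_neg (by omega)]
      have e3 : (if j = n + 1 then ar (KU a U) else 0) = 0 := if_neg (by omega)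
      rw [e2] at A
      rw [e1, e3]
      linarith)
    simp only [intervalIntegral.integral_same, mul_zero, add_zero, if_true] at hsum
    rw [if_neg (by omega)] at hsum
    linarith
  -- top
  have Top : Qs a U a3 ≤ Qs a U a4 - 2 * (∫ s in (x 0)..(x (n + 1)), cp s) + ar (KU a U) +
      chn (Ds a U h) a3 (t3 ++ [a4]) := by
    set g : ℕ → Stn := fun i => if i = 0 then a3 else if i ≤ n then
      ⟨c (tp (n - i)), (x (n + 1 - i), cp (x (n + 1 - i))), (-1, -ν (n + 1 - i)),
        Real.pi + Real.arctan (ν (n + 1 - i))⟩ else a4 with hg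
    have g0 : g 0 = a3 := by simp [hg]
    have gn : g (n + 1) = a4 := by simp [hg]
    have gm : ∀ i, 0 < i → i ≤ n → g i =
        ⟨c (tp (n - i)), (x (n + 1 - i), cp (x (n + 1 - i))), (-1, -ν (n + 1 - i)),
        Real.pi + Real.arctan (ν (n + 1 - i))⟩ := by
      intro j h1 h2
      simp only [hg]
      rw [if_neg (by omega), if_pos h2]
    have et : t3 = (List.range n).map (fun j => g (j + 1)) := by
      rw [ht3, reverse_range_map]
      apply List.map_congr_left
      intro j hj
      rw [List.mem_range] at hj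
      rw [gm (j + 1) (by omega) (by omega)]
      have q1 : n - 1 - j = n - (j + 1) := by omega
      have q2 : n - (j + 1) + 1 = n + 1 - (j + 1) := by omega
      rw [q1, q2]
    rw [et, ← gn, ← g0, chn_range_snoc]
    have hsum := sum_ge (P := fun j => Qs a U (g j) -
      2 * (∫ s in (x (n + 1 - j))..(x (n + 1)), cp s) +
      (if j = n + 1 then ar (KU a U) else 0)) (D := fun j => Ds a U h (g j) (g (j + 1))) (n + 1) (by
      intro i hi
      obtain ⟨j, hj, hij⟩ : ∃ j, j < n + 1 ∧ i + j = n := ⟨n - i, by omega, by omega⟩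
      have r1 : n + 1 - i = j + 1 := by omega
      have r2 : n + 1 - (i + 1) = j := by omega
      have r3 : n - i = j := by omega
      have gv : ∀ i, i ≤ n + 1 → (g i).v = (x (n + 1 - i), cp (x (n + 1 - i))) := by
        intro i hi
        rcases Nat.eq_zero_or_pos i with h0 | h0
        · rw [h0, g0]; simp [ha3]
        · rcases Nat.lt_or_ge n i with h1 | h1
          · have : i = n + 1 := by omega
            rw [this, gn]; simp [ha4]
          · rw [gm i h0 h1]
      have go : ∀ i, i ≤ n → (g i).o = c (tp (n - i)) := by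
        intro i hi
        rcases Nat.eq_zero_or_pos i with h0 | h0
        · rw [h0, g0]; simp [ha3]
        · rw [gm i h0 hi]
      have A := topArc hB hh hV (f := cp) (x := x j) (x' := x (j + 1)) (s := g i) (s' := g (i + 1))
        (hx j hj) (hcpc.mono (hsub j hj)) (by rw [gv i (by omega), r1])
        (by rw [gv (i + 1) (by omega), r2])
        (by rw [go i (by omega), r3]; exact hKt j hj)
        (by
          rw [gv (i + 1) (by omega), r2]
          rcases Nat.lt_or_ge n (i + 1) with h1 | h1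
          · have : i = n := by omega
            have hj0 : j = 0 := by omega
            rw [this, gn, hj0]
            exact hKt 0 (by omega) _ ⟨le_rfl, (hx 0 (by omega)).le⟩
          · rw [go (i + 1) h1]
            have e5 : j = n - (i + 1) + 1 := by omega
            rw [e5]
            exact hKt (n - (i + 1)) (by omega) _ ⟨(hx (n - (i + 1)) (by omega)).le, le_rfl⟩)
        (by
          rcases Nat.eq_zero_or_pos i with h0 | h0
          · rw [h0, g0]
            left
            exact ⟨rfl, by simp [ha3]⟩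
          · rw [gm i h0 (by omega), r1]
            right
            refine ⟨by simp, fun t ht => ?_⟩
            simp only [neg_div_neg_eq, div_one]
            exact hν (j + 1) (by omega) (by omega) t (hsub j hj ht))
        (by
          rcases Nat.lt_or_ge n (i + 1) with h1 | h1
          · have : i + 1 = n + 1 := by omega
            rw [this, gn]
            left
            exact ⟨rfl, by simp [ha4]⟩
          · rw [gm (i + 1) (by omega) h1, r2]
            right
            refine ⟨by simp, fun t ht => ?_⟩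
            simp only [neg_div_neg_eq, div_one]
            exact hν j (by omega) (by omega) t (hsub j hj ht))
      have e1 : (∫ s in (x j)..(x (n + 1)), cp s) =
          (∫ s in (x j)..(x (j + 1)), cp s) + ∫ s in (x (j + 1))..(x (n + 1)), cp s :=
        (intervalIntegral.integral_add_adjacent_intervals (hintp j (j + 1) (by omega) (by omega))
          (hintp (j + 1) (n + 1) (by omega) (by omega))).symm
      have e2 : (if (g (i + 1)).u.1 = 0 then ar (KU a U) else 0) =
          (if i + 1 = n + 1 then ar (KU a U) else 0) := by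
        rcases Nat.lt_or_ge n (i + 1) with h1 | h1
        · have : i + 1 = n + 1 := by omega
          rw [this, gn, if_pos rfl, if_pos rfl]
        · rw [gm (i + 1) (by omega) h1, if_neg (by simp), if_neg (by omega)]
      have e3 : (if i = n + 1 then ar (KU a U) else 0) = 0 := if_neg (by omega)
      rw [e2] at A
      rw [r1, r2, e1, e3]
      linarith)
    simp only [Nat.sub_zero, intervalIntegral.integral_same, mul_zero, sub_zero, Nat.sub_self,
      if_true] at hsum
    rw [if_neg (by omega)] at hsum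
    linarith
  -- right edge
  have Rgt : Qs a U a2 ≤ Qs a U a3 + chn (Ds a U h) a2 (t2 ++ [a3]) := by
    have hLn : L n = bo n :: (L n).tail := by
      have hb := hbo n (by omega)
      cases hL : L n with
      | nil => rw [hL] at hb; simp at hb
      | cons b B =>
        rw [hL] at hb
        simp only [List.head?_cons, Option.mem_def, Option.some.injEq] at hb
        rw [hb, List.tail_cons]
    have hch := hVn.2.1
    rw [hLn] at hch
    refine edgeR hB hh hV c (x (n + 1)) _ (fun i => i ∈ L n)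
      (fun i => max (lo U (c i) (x (n + 1))) (cm (x (n + 1)))) ?_ (Real.pi / 2) (L n).tail (bo n) a2
      rfl rfl rfl ?_ hch (tp n) ?_ a3 rfl rfl rfl
    · intro i i' hi hi' hR
      exact edge (x (n + 1)) ⟨hmono _ le_rfl 0 (by omega), le_rfl⟩ (L n) hVn i hi i' hi' hR
    · intro i hi
      rw [← hLn] at hi
      exact hi
    · rw [← hLn]; exact htp n (by omega)
  -- left edge
  have Lft : Qs a U a4 ≤ Qs a U a1 + chn (Ds a U h) a4 (t4 ++ [a1]) := by
    have hL0 : L 0 = bo 0 :: (L 0).tail := by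
      have hb := hbo 0 (by omega)
      cases hL : L 0 with
      | nil => rw [hL] at hb; simp at hb
      | cons b B =>
        rw [hL] at hb
        simp only [List.head?_cons, Option.mem_def, Option.some.injEq] at hb
        rw [hb, List.tail_cons]
    have hch := hV0.2.1
    rw [hL0] at hch
    have := edgeL hB hh hV c (x 0) _ (fun i => i ∈ L 0)
      (fun i => max (lo U (c i) (x 0)) (cm (x 0))) (by
        intro i i' hi hi' hR
        exact edge (x 0) ⟨le_rfl, hmono _ le_rfl 0 (by omega)⟩ (L 0) hV0 i hi i' hi' hR)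
      (3 * Real.pi / 2) (L 0).tail (bo 0) a1 rfl rfl (Or.inl rfl) (by
        intro i hi
        rw [← hL0] at hi
        exact hi) hch (tp 0) (by rw [← hL0]; exact htp 0 (by omega)) a4 rfl rfl rfl
    rw [← hL0] at this
    exact this
  -- assembly
  have hC := ar_regP (cm := cm) (cp := cp) (hmono (n + 1) le_rfl 0 (by omega)) hcmc hcpc hle
  have hI : (∫ s in (x 0)..(x (n + 1)), (cp s - cm s)) =
      (∫ s in (x 0)..(x (n + 1)), cp s) - ∫ s in (x 0)..(x (n + 1)), cm s :=
    intervalIntegral.integral_sub (hintp 0 (n + 1) (by omega) le_rfl)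
      (hintm 0 (n + 1) (by omega) le_rfl)
  have hcyc : cyc (Ds a U h) (stns U cm cp c (n + 1) x μ ν L bo tp) =
      cyc (fun s s' => cr s.o s'.o) (stns U cm cp c (n + 1) x μ ν L bo tp) +
      cyc (fun s s' => if s.o = s'.o then 0 else
        h - kap (KU a U) (ar (KU a U) - h) s.o s'.o s'.v s'.u) (stns U cm cp c (n + 1) x μ ν L bo tp) -
      cyc (fun s s' => gam (KU a U) (s.v - s.o) s.u (s'.v - s.o) s'.u)
        (stns U cm cp c (n + 1) x μ ν L bo tp) := by
    rw [← cyc_add, ← cyc_sub]
    rfl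
  have h4 : cyc (Ds a U h) (stns U cm cp c (n + 1) x μ ν L bo tp) =
      chn (Ds a U h) a1 (t1 ++ [a2]) + chn (Ds a U h) a2 (t2 ++ [a3]) +
      chn (Ds a U h) a3 (t3 ++ [a4]) + chn (Ds a U h) a4 (t4 ++ [a1]) := by
    rw [hst, cyc_four]
  unfold RI
  rw [hC, hI]
  linarith

end
end FT722
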